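import Pool.Agent.N672.HR.Res
import Pool.Agent.N672.HR.Car
import Pool.Agent.N672.HR.Nat
import Pool.Agent.N672.HR.Ipr
import Pool.Agent.N672.HR.Ebp
import Pool.Agent.N672.HR.Lin
import Pool.Agent.N672.HR.Pai
import Pool.Agent.N672.HR.Vec
import Pool.Agent.N672.HR.Eig

set_option autoImplicit false

/-!
# Horrocks' inequality for modules with rotation symmetry

The variables `X_1, …, X_m` are partitioned into blocks `B⁻¹(1), …, B⁻¹(s)`, and `M ≠ 0` is a finite dimensional
module over `ℂ[X_1, …, X_m]` with a Hermitian inner product. It is graded by the degree in every block: there are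
self-adjoint operators `D b` with `[D b, X_j] = X_j` for `X_j` in block `b` and `[D b, X_j] = 0` otherwise. The
infinitesimal rotations of each block act compatibly: for `a`, `b` in the same block there is a skew-adjoint operator
`L a b` with `[L a b, X_b] = X_a`, `[L a b, X_a] = -X_b`, `[L a b, X_c] = 0` for the other variables. Then every
resolution of `M` by finite free modules has `rank F_i ≥ m.choose i` for all `i`.

One block: graded modules with a unitary action of the rotation group `SO(m)` compatible with the rotations of the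
variables, for example modules defined by equations that are invariant under rotations. Blocks with one element:
modules with an (orthogonal) grading by `ℤ^m`.
-/

namespace Pool.Agent.Results.MP_e2ce73_al.RotationInvariantModules

open MvPolynomial Pool.Agent.N672.HR

universe v

theorem result (m s : ℕ) (B : Fin m → Fin s)
    (M : Type v) [NormedAddCommGroup M] [InnerProductSpace ℂ M] [FiniteDimensional ℂ M]
    [Nontrivial M] [Module (MvPolynomial (Fin m) ℂ) M] [IsScalarTower ℂ (MvPolynomial (Fin m) ℂ) M]
    (D : Fin s → M →ₗ[ℂ] M) (hD : ∀ b, (D b).IsSymmetric)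
    (hDX : ∀ (b : Fin s) (j : Fin m) (x : M), D b ((X j : MvPolynomial (Fin m) ℂ) • x) =
      (X j : MvPolynomial (Fin m) ℂ) • D b x +
        if B j = b then (X j : MvPolynomial (Fin m) ℂ) • x else 0)
    (L : Fin m → Fin m → M →ₗ[ℂ] M)
    (hL : ∀ a b, B a = B b → ∀ x y : M, (inner ℂ (L a b x) y : ℂ) = -inner ℂ x (L a b y))
    (hLX : ∀ a b, B a = B b → ∀ (c : Fin m) (x : M),
      L a b ((X c : MvPolynomial (Fin m) ℂ) • x) = (X c : MvPolynomial (Fin m) ℂ) • L a b x +
        (if c = b then (X a : MvPolynomial (Fin m) ℂ) • x else 0) -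
        (if c = a then (X b : MvPolynomial (Fin m) ℂ) • x else 0))
    (F : ℕ → Type v) [∀ i, AddCommGroup (F i)] [∀ i, Module (MvPolynomial (Fin m) ℂ) (F i)]
    [∀ i, Module.Free (MvPolynomial (Fin m) ℂ) (F i)]
    [∀ i, Module.Finite (MvPolynomial (Fin m) ℂ) (F i)]
    (d : ∀ i, F (i + 1) →ₗ[MvPolynomial (Fin m) ℂ] F i)
    (ε : F 0 →ₗ[MvPolynomial (Fin m) ℂ] M) (hε : Function.Surjective ε)
    (hd0 : LinearMap.range (d 0) = LinearMap.ker ε)
    (hd : ∀ i, LinearMap.range (d (i + 1)) = LinearMap.ker (d i)) (i : ℕ) :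
    m.choose i ≤ Module.finrank (MvPolynomial (Fin m) ℂ) (F i) :=
  rank_bound t_nat t_nat t_ipr t_ebp t_lin t_pai (t_vec t_car t_nat t_ebp) t_eig m s B M D hD hDX L hL
    hLX F d ε hε hd0 hd i

end Pool.Agent.Results.MP_e2ce73_al.RotationInvariantModules
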